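import Mathlib
import Pool.Agent.H530R2.Whb3

/-!
# Polynomial-time identity testing of formulas reading every variable boundedly often

MP_3c5c20_lc asks for deterministic polynomial-time identity testing of arithmetic expressions. We
give a deterministic test with polynomially many evaluations for arithmetic formulas in which
every variable occurs at most `w` times, for every constant `w`. The formulas need not be
multilinear and have any depth. The test is not blackbox: it first computes a point `σ` at which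
no partial derivative of a gate vanishes, unless it is the zero polynomial, for the formula and
its modifications with one subformula replaced by `0` or `1`, by going through these polynomials,
those of subformulas first (`Run`). The explicit set of points `σ + p`, `p ∈ points n m D`, then
hits all sums of `κ` products of any number of factors, where every factor is a polynomial in `w`
of the formulas, and all polynomials in such products of transcendence degree at most `κ`.

The proof: if no nonzero partial derivative of a gate vanishes at the origin `σ`, then it does not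
belong to any of the ideals of the generator with origin `σ`, and the theorem `TreeSeeds.all` on
polynomials in boundedly many formulas applies to boundedly many seeds. This theorem shows as well
that the search for the next point succeeds. The local-to-global principle for the algebraic
independence of products (`Pool.Agent.H626R2.Loc`, by helper626 and others) gives the sums of
products.
-/

namespace Pool.Agent.Results.MP_3c5c20_lc.PolynomialTimeReadK

open MvPolynomial

/-- Formulas in `n` variables: the leaves are polynomials, a gate computes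
`c₀ + c₁ a + c₂ b + c₃ a b` from the values `a`, `b` of its arguments (in particular `a + b`,
`a - b` and `a b`). -/
inductive Formula (n : ℕ) : Type
  | leaf (g : MvPolynomial (Fin n) ℂ) : Formula n
  | gate (c₀ c₁ c₂ c₃ : ℂ) (a b : Formula n) : Formula n

variable {n : ℕ}

/-- the polynomial computed by a formula -/
noncomputable def Formula.value : Formula n → MvPolynomial (Fin n) ℂ
  | .leaf g => g
  | .gate c₀ c₁ c₂ c₃ a b => C c₀ + C c₁ * a.value + C c₂ * b.value + C c₃ * (a.value * b.value)

open Classical in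
/-- the number of leaves in which the variable `x` occurs -/
noncomputable def Formula.reads : Formula n → Fin n → ℕ
  | .leaf g, x => if x ∈ g.vars then 1 else 0
  | .gate _ _ _ _ a b, x => a.reads x + b.reads x

/-- all leaves have the property `L` -/
def Formula.Leaves (L : MvPolynomial (Fin n) ℂ → Prop) : Formula n → Prop
  | .leaf g => L g
  | .gate _ _ _ _ a b => a.Leaves L ∧ b.Leaves L

/-- the number of leaves -/
def Formula.size : Formula n → ℕ
  | .leaf _ => 1
  | .gate _ _ _ _ a b => a.size + b.size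

/-- the partial derivatives of the gates with respect to their arguments (as polynomials in the
variables), those of subformulas first -/
noncomputable def Formula.partials : Formula n → List (MvPolynomial (Fin n) ℂ)
  | .leaf _ => []
  | .gate _ c₁ c₂ c₃ a b => a.partials ++ b.partials ++
      [C c₁ + C c₃ * b.value, C c₂ + C c₃ * a.value]

/-- the formula, and the formulas which arise from it by replacing one subformula by `0` or `1` -/
noncomputable def Formula.holes : Formula n → List (Formula n)
  | .leaf g => [.leaf g, .leaf (C 0), .leaf (C 1)]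
  | .gate c₀ c₁ c₂ c₃ a b => [.gate c₀ c₁ c₂ c₃ a b, .leaf (C 0), .leaf (C 1)] ++
      (a.holes.map (fun a' => .gate c₀ c₁ c₂ c₃ a' b) ++
        b.holes.map (fun b' => .gate c₀ c₁ c₂ c₃ a b'))

/-- the subformulas, and the formulas which arise from them by replacing one subformula by `0` or
`1` -/
noncomputable def Formula.segs : Formula n → List (Formula n)
  | .leaf g => (Formula.leaf g).holes
  | .gate c₀ c₁ c₂ c₃ a b => (Formula.gate c₀ c₁ c₂ c₃ a b).holes ++ (a.segs ++ b.segs)

/-- the polynomials tested one after the other -/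
noncomputable def tests (l : List (Formula n)) : List (MvPolynomial (Fin n) ℂ) :=
  l.flatMap fun E => E.segs.flatMap Formula.partials

/-- `Run S L σ K`: a run of the search over the finite set `S` of points. It starts at the point
`0`. For every polynomial `g` of the list `L` it looks for a point `p ∈ S` such that neither `g`
nor one of the polynomials of `K` (those found to be nonzero so far) vanishes at `σ + p`. If there
is such a point, it moves to `σ + p` and adds `g` to `K`, otherwise it goes on with the next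
polynomial. -/
inductive Run (S : Finset (Fin n → ℤ)) : List (MvPolynomial (Fin n) ℂ) → (Fin n → ℤ) →
    List (MvPolynomial (Fin n) ℂ) → Prop
  | start : Run S [] 0 []
  | skip {L K : List (MvPolynomial (Fin n) ℂ)} {σ : Fin n → ℤ} (g : MvPolynomial (Fin n) ℂ) :
      Run S L σ K → (∀ p ∈ S, ∃ h ∈ g :: K, eval (fun i => ((σ i + p i : ℤ) : ℂ)) h = 0) →
      Run S (L ++ [g]) σ K
  | move {L K : List (MvPolynomial (Fin n) ℂ)} {σ : Fin n → ℤ} (g : MvPolynomial (Fin n) ℂ)
      (p : Fin n → ℤ) : Run S L σ K → p ∈ S →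
      (∀ h ∈ g :: K, eval (fun i => ((σ i + p i : ℤ) : ℂ)) h ≠ 0) →
      Run S (L ++ [g]) (σ + p) (g :: K)

/-- The leaves: polynomials in one variable; and polynomials which have at most `2 ^ s` monomials
or all of whose monomials involve at most `s` variables, and in which every variable occurs with
at most `w` different exponents. -/
def Simple (w s : ℕ) (g : MvPolynomial (Fin n) ℂ) : Prop :=
  (∃ (p : Polynomial ℂ) (x : Fin n), g = Polynomial.aeval (X x) p) ∨
    ((g.support.card ≤ 2 ^ s ∨ ∀ a ∈ g.support, a.support.card ≤ s) ∧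
      ∀ x, (g.support.image fun a => a x).card ≤ w)

/-- a polynomial in `w` formulas of the list `l` -/
def Factor (l : List (Formula n)) (w : ℕ) (g : MvPolynomial (Fin n) ℂ) : Prop :=
  ∃ (E : Fin w → Formula n) (P : MvPolynomial (Fin w) ℂ),
    (∀ i, E i ∈ l) ∧ g = aeval (fun i => (E i).value) P

/-- a polynomial in finitely many products of any number of members of `Factor l w`, no `κ + 1`
of which are algebraically independent -/
def Sums (l : List (Formula n)) (w κ : ℕ) (f : MvPolynomial (Fin n) ℂ) : Prop :=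
  ∃ (N : ℕ) (T : Fin N → Multiset (MvPolynomial (Fin n) ℂ)), (∀ i, ∀ g ∈ T i, Factor l w g) ∧
    (∀ u : Fin (κ + 1) → Fin N, ¬ AlgebraicIndependent ℂ (fun a => (T (u a)).prod)) ∧
    f ∈ Algebra.adjoin ℂ (Set.range fun i => (T i).prod)

/-- The point with seeds `y, z ∈ ℕ^m`: its `i`-th coordinate is
`∑_l y_l ∏_{k ≠ i} (z_l - k)` (the Shpilka–Volkovich generator with nodes `0, …, n-1`). -/
def point (n m : ℕ) (y z : Fin m → ℕ) : Fin n → ℤ :=
  fun i => ∑ l : Fin m, (y l : ℤ) * ∏ k ∈ Finset.univ.erase i, ((z l : ℤ) - (k.val : ℤ))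

/-- The explicit set of all points with seeds `y ∈ {0,…,d}^m`, `z ∈ {0,…,nd}^m`. -/
def points (n m d : ℕ) : Finset (Fin n → ℤ) :=
  ((Fintype.piFinset fun _ : Fin m => Finset.range (d + 1)) ×ˢ
    (Fintype.piFinset fun _ : Fin m => Finset.range (n * d + 1))).image
    fun yz => point n m yz.1 yz.2

open Pool.Agent.H530R2

/-- translation to the formulas of `Pool.Agent.H530R2` -/
noncomputable def toTr : Formula n → Tr ℂ n
  | .leaf g => .leaf g
  | .gate c₀ c₁ c₂ c₃ a b =>
    .gate (C c₀ + C c₁ * X 0 + C c₂ * X 1 + C c₃ * (X 0 * X 1)) (toTr a) (toTr b)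

theorem toTr_val (E : Formula n) : (toTr E).val = E.value := by
  induction E with
  | leaf g => rfl
  | gate c₀ c₁ c₂ c₃ a b iha ihb =>
    simp only [toTr, Tr.val, Formula.value, map_add, map_mul, algHom_C, aeval_X, iha, ihb]
    rfl

theorem toTr_occ (E : Formula n) (x : Fin n) : (toTr E).occ x = E.reads x := by
  induction E with
  | leaf g => simp only [toTr, Tr.occ, Formula.reads]
  | gate c₀ c₁ c₂ c₃ a b iha ihb => simp only [toTr, Tr.occ, Formula.reads, iha, ihb]

theorem toTr_ml (E : Formula n) : (toTr E).ML := by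
  induction E with
  | leaf g => trivial
  | gate c₀ c₁ c₂ c₃ a b iha ihb => exact ⟨iha, ihb, c₀, c₁, c₂, c₃, rfl⟩

theorem toTr_size (E : Formula n) : (toTr E).size = E.size := by
  induction E with
  | leaf g => rfl
  | gate c₀ c₁ c₂ c₃ a b iha ihb => simp only [toTr, Tr.size, Formula.size, iha, ihb]

theorem simple_lf {w s : ℕ} {g : MvPolynomial (Fin n) ℂ} (h : Simple w s g) :
    g ∈ Lf n ℂ s w := by
  classical
  rcases h with ⟨p, x, rfl⟩ | ⟨h, hw⟩
  · refine Or.inl ⟨x, ?_⟩
    rw [Polynomial.aeval_eq_sum_range]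
    refine Subalgebra.sum_mem _ fun e _ => Subalgebra.smul_mem _ (Subalgebra.pow_mem _ ?_ _) _
    exact X_mem_supported.2 rfl
  · refine Or.inr ⟨?_, fun x => ?_⟩
    · rcases h with h | h
      · refine ⟨g.support, ?_, fun x hx => ⟨x, hx, 0, (add_zero x).symm, by simp⟩⟩
        exact h.trans (Nat.pow_le_pow_right (by omega) (by omega))
      · refine ⟨{0}, by rw [Finset.card_singleton]; exact Nat.one_le_two_pow, fun x hx =>
          ⟨0, Finset.mem_singleton_self _, x, (zero_add x).symm, ?_⟩⟩
        have := h x hx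
        omega
    · refine le_trans (le_of_eq ?_) ((hw x).trans (Nat.le_succ w))
      congr!

theorem toTr_lv {w s : ℕ} (E : Formula n) (h : E.Leaves (Simple w s)) :
    (toTr E).Lv (Lf n ℂ s w) := by
  induction E with
  | leaf g => exact simple_lf h
  | gate c₀ c₁ c₂ c₃ a b iha ihb => exact ⟨iha h.1, ihb h.2⟩

theorem toTr_partials (E : Formula n) : (toTr E).gps = E.partials := by
  induction E with
  | leaf g => rfl
  | gate c₀ c₁ c₂ c₃ a b iha ihb =>
    simp only [toTr, Tr.gps, Formula.partials, iha, ihb, ML_partial0, ML_partial1, toTr_val]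

theorem toTr_holes (E : Formula n) : (toTr E).holes = E.holes.map toTr := by
  induction E with
  | leaf g => rfl
  | gate c₀ c₁ c₂ c₃ a b iha ihb =>
    simp only [toTr, Tr.holes, Formula.holes, iha, ihb, List.map_append, List.map_cons,
      List.map_nil, List.map_map]
    rfl

theorem toTr_segs (E : Formula n) : (toTr E).segs = E.segs.map toTr := by
  induction E with
  | leaf g => rfl
  | gate c₀ c₁ c₂ c₃ a b iha ihb =>
    simp only [Formula.segs, List.map_append, ← toTr_holes, ← iha, ← ihb]
    rfl

section run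

variable {S : Finset (Fin n → ℤ)}

theorem Run.keep {L K : List (MvPolynomial (Fin n) ℂ)} {σ : Fin n → ℤ} (h : Run S L σ K) :
    (∀ g ∈ K, eval (fun i => ((σ i : ℤ) : ℂ)) g ≠ 0) ∧
      (K.map totalDegree).sum ≤ (L.map totalDegree).sum := by
  induction h with
  | start => simp
  | skip g _ _ ih =>
    refine ⟨ih.1, ?_⟩
    rw [List.map_append, List.sum_append]
    exact ih.2.trans (Nat.le_add_right _ _)
  | move g p _ _ h ih =>
    refine ⟨fun g' hg' => h g' hg', ?_⟩
    rw [List.map_append, List.sum_append, List.map_cons, List.sum_cons]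
    simp only [List.map_cons, List.map_nil, List.sum_cons, List.sum_nil]
    omega

theorem Run.snoc {L K : List (MvPolynomial (Fin n) ℂ)} {σ : Fin n → ℤ}
    {g : MvPolynomial (Fin n) ℂ} (h : Run S (L ++ [g]) σ K) :
    ∃ (σ₀ : Fin n → ℤ) (K₀ : List (MvPolynomial (Fin n) ℂ)), Run S L σ₀ K₀ ∧
      ((K = K₀ ∧ ∀ p ∈ S, ∃ h ∈ g :: K₀, eval (fun i => ((σ₀ i + p i : ℤ) : ℂ)) h = 0) ∨
        K = g :: K₀) := by
  generalize hL : L ++ [g] = L' at h
  cases h with
  | start => simp at hL
  | skip g' h1 h2 =>
    obtain ⟨rfl, h3⟩ := List.append_inj' hL rfl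
    obtain rfl : g = g' := by simpa using h3
    exact ⟨_, _, h1, Or.inl ⟨rfl, h2⟩⟩
  | move g' p h1 h2 h3 =>
    obtain ⟨rfl, h4⟩ := List.append_inj' hL rfl
    obtain rfl : g = g' := by simpa using h4
    exact ⟨_, _, h1, Or.inr rfl⟩

/-- every list has a run -/
theorem exists_run (S : Finset (Fin n → ℤ)) (L : List (MvPolynomial (Fin n) ℂ)) :
    ∃ σ K, Run S L σ K := by
  induction L using List.reverseRecOn with
  | nil => exact ⟨0, [], .start⟩
  | append_singleton L g ih =>
    obtain ⟨σ, K, h⟩ := ih
    by_cases hp : ∃ p ∈ S, ∀ h ∈ g :: K, eval (fun i => ((σ i + p i : ℤ) : ℂ)) h ≠ 0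
    · obtain ⟨p, hpS, hp⟩ := hp
      exact ⟨σ + p, g :: K, .move g p h hpS hp⟩
    · refine ⟨σ, K, .skip g h ?_⟩
      intro p hpS
      by_contra hc
      apply hp
      refine ⟨p, hpS, fun h hh he => hc ⟨h, hh, he⟩⟩

theorem Run.bound {B : ℕ} (hB : ∀ p ∈ S, ∀ i, |p i| ≤ (B : ℤ))
    {L K : List (MvPolynomial (Fin n) ℂ)} {σ : Fin n → ℤ} (h : Run S L σ K) (i : Fin n) :
    |σ i| ≤ ((L.length * B : ℕ) : ℤ) := by
  induction h with
  | start => simp
  | skip g _ _ ih =>
    refine ih.trans ?_
    rw [List.length_append]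
    push_cast
    nlinarith
  | move g p _ hp _ ih =>
    rw [List.length_append, List.length_singleton]
    have h1 := hB p hp i
    rw [Pi.add_apply]
    refine (abs_add_le _ _).trans ?_
    push_cast at ih ⊢
    nlinarith

end run

section adm

/-- the condition on the formulas -/
def GoodT (k s : ℕ) (T : Tr ℂ n) : Prop :=
  T.Lv {g : MvPolynomial (Fin n) ℂ | LS (s + 1) 1 g} ∧ ∀ i, T.occ i ≤ k

/-- lists of polynomials in two formulas whose gate derivatives come before -/
inductive Adm (k s : ℕ) : List (MvPolynomial (Fin n) ℂ) → Prop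
  | nil : Adm k s []
  | snoc {L : List (MvPolynomial (Fin n) ℂ)} {g : MvPolynomial (Fin n) ℂ} (a b : Tr ℂ n) :
      Adm k s L → GoodT k s a → GoodT k s b → (∀ x ∈ a.gps, x ∈ L) → (∀ x ∈ b.gps, x ∈ L) →
      g ∈ Algebra.adjoin ℂ ({a.val, b.val} : Set (MvPolynomial (Fin n) ℂ)) → Adm k s (L ++ [g])

theorem mem_pair (γ : MvPolynomial (Fin 2) ℂ) (a b : MvPolynomial (Fin n) ℂ) :
    aeval ![a, b] γ ∈ Algebra.adjoin ℂ ({a, b} : Set (MvPolynomial (Fin n) ℂ)) := by
  have h5 : aeval ![a, b] γ ∈ Algebra.adjoin ℂ (Set.range ![a, b]) := by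
    rw [Algebra.adjoin_range_eq_range_aeval]
    exact ⟨γ, rfl⟩
  refine Algebra.adjoin_mono ?_ h5
  rintro _ ⟨i, rfl⟩
  fin_cases i
  · exact Or.inl rfl
  · exact Or.inr rfl

theorem Adm.gps {k s : ℕ} (T : Tr ℂ n) (hT : GoodT k s T) :
    ∀ {L : List (MvPolynomial (Fin n) ℂ)}, Adm k s L → Adm k s (L ++ T.gps) := by
  induction T with
  | leaf g => exact fun {L} h => by rwa [Tr.gps, List.append_nil]
  | gate γ a b iha ihb =>
    intro L h
    have ha : GoodT k s a := ⟨hT.1.1, fun i => (Nat.le_add_right _ _).trans (hT.2 i)⟩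
    have hb : GoodT k s b := ⟨hT.1.2, fun i => (Nat.le_add_left _ _).trans (hT.2 i)⟩
    have h2 := ihb hb (iha ha h)
    have hsa : ∀ x ∈ a.gps, x ∈ L ++ a.gps ++ b.gps := fun x hx =>
      List.mem_append.2 (Or.inl (List.mem_append.2 (Or.inr hx)))
    have hsb : ∀ x ∈ b.gps, x ∈ L ++ a.gps ++ b.gps := fun x hx => List.mem_append.2 (Or.inr hx)
    have h3 := Adm.snoc (g := aeval ![a.val, b.val] (pderiv 0 γ)) a b h2 ha hb hsa hsb
      (mem_pair _ _ _)
    have h4 := Adm.snoc (g := aeval ![a.val, b.val] (pderiv 1 γ)) a b h3 ha hb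
      (fun x hx => List.mem_append.2 (Or.inl (hsa x hx)))
      (fun x hx => List.mem_append.2 (Or.inl (hsb x hx))) (mem_pair _ _ _)
    have h5 : L ++ (Tr.gate γ a b).gps = L ++ a.gps ++ b.gps ++
        [aeval ![a.val, b.val] (pderiv 0 γ)] ++ [aeval ![a.val, b.val] (pderiv 1 γ)] := by
      simp only [Tr.gps, List.append_assoc, List.cons_append, List.nil_append]
    rw [h5]
    exact h4

theorem Adm.flat {k s : ℕ} (l : List (Tr ℂ n)) (hl : ∀ T ∈ l, GoodT k s T) :
    ∀ {L : List (MvPolynomial (Fin n) ℂ)}, Adm k s L → Adm k s (L ++ l.flatMap Tr.gps) := by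
  induction l with
  | nil => exact fun {L} h => by rwa [List.flatMap_nil, List.append_nil]
  | cons T l ih =>
    intro L h
    rw [List.flatMap_cons, ← List.append_assoc]
    exact ih (fun T' hT' => hl T' (List.mem_cons_of_mem _ hT'))
      (Adm.gps T (hl T List.mem_cons_self) h)

theorem tsl_list_prod {M : ℕ} {σ : Fin n → ℂ} (l : List (MvPolynomial (Fin n) ℂ))
    (h : ∀ g ∈ l, tsl σ g ∉ genI (fun i : Fin n => ((i.val : ℕ) : ℂ)) M) :
    tsl σ l.prod ∉ genI (fun i : Fin n => ((i.val : ℕ) : ℂ)) M := by
  induction l with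
  | nil =>
    rw [List.prod_nil, map_one]
    exact fun hc => (genI_prime _ M).ne_top ((Ideal.eq_top_iff_one _).2 hc)
  | cons g l ih =>
    rw [List.prod_cons, map_mul]
    intro hc
    rcases (genI_prime _ M).mem_or_mem hc with h1 | h1
    · exact h g List.mem_cons_self h1
    · exact ih (fun g' hg' => h g' (List.mem_cons_of_mem _ hg')) h1

/-- all nonzero polynomials of the list are kept -/
theorem adm_run {k s m₀ M D : ℕ} (hM : m₀ * (s + 1) ≤ M)
    (hm : ∀ (σ : Fin n → ℂ) (T : Fin 2 → Tr ℂ n),
      (∀ q, (T q).Lv {g : MvPolynomial (Fin n) ℂ | LS (s + 1) 1 g}) →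
      (∀ q i, (T q).occ i ≤ k) → (∀ q, ∀ g ∈ (T q).gps, g ≠ 0 → eval σ g ≠ 0) →
      ∀ f ∈ Algebra.adjoin ℂ (Set.range fun q => (T q).val), f ≠ 0 →
      tsl σ f ∉ genI (fun i : Fin n => ((i.val : ℕ) : ℂ)) (m₀ * (s + 1)))
    {L : List (MvPolynomial (Fin n) ℂ)} (hL : Adm k s L) : (L.map totalDegree).sum ≤ D →
    ∀ {σ : Fin n → ℤ} {K : List (MvPolynomial (Fin n) ℂ)}, Run (points n M D) L σ K →
    ∀ g ∈ L, g ≠ 0 → g ∈ K := by
  induction hL with
  | nil => exact fun _ σ K _ g hg => absurd hg List.not_mem_nil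
  | @snoc L g a b _ ha hb hga hgb hg ih =>
    intro hD σ K hrun
    obtain ⟨σ₀, K₀, hrun₀, hK⟩ := hrun.snoc
    have hD' := hD
    rw [List.map_append, List.sum_append] at hD'
    have ih' := ih (by omega) hrun₀
    have hsub : ∀ x ∈ K₀, x ∈ K := by
      rcases hK with ⟨rfl, _⟩ | rfl
      · exact fun x hx => hx
      · exact fun x hx => List.mem_cons_of_mem _ hx
    intro g' hg' hg'0
    rcases List.mem_append.1 hg' with h | h
    · exact hsub _ (ih' g' h hg'0)
    obtain rfl : g' = g := List.mem_singleton.1 h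
    rcases hK with ⟨rfl, hno⟩ | rfl
    · exfalso
      obtain ⟨hkeep, hdeg⟩ := hrun₀.keep
      set σc : Fin n → ℂ := fun i => ((σ₀ i : ℤ) : ℂ) with hσc
      have h1 : tsl σc g' ∉ genI (fun i : Fin n => ((i.val : ℕ) : ℂ)) M := by
        intro hc
        refine hm σc ![a, b] ?_ ?_ ?_ g' ?_ hg'0 (genI_le _ hM hc)
        · intro q; fin_cases q; exacts [ha.1, hb.1]
        · intro q; fin_cases q; exacts [ha.2, hb.2]
        · intro q
          fin_cases q
          · exact fun x hx hx0 => hkeep x (ih' x (hga x hx) hx0)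
          · exact fun x hx hx0 => hkeep x (ih' x (hgb x hx) hx0)
        · refine Algebra.adjoin_mono ?_ hg
          rintro x (rfl | rfl)
          · exact ⟨0, rfl⟩
          · exact ⟨1, rfl⟩
      have h2 : ∀ x ∈ g' :: K, tsl σc x ∉ genI (fun i : Fin n => ((i.val : ℕ) : ℂ)) M := by
        intro x hx
        rcases List.mem_cons.1 hx with rfl | hx
        · exact h1
        · intro hc
          exact hkeep x hx (shVan_zero _ (natInj n) σc ∅
            ((mem_shVan _ (natInj n) σc 0 x).2 (genI_le _ (Nat.zero_le M) hc)))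
      have h3 := tsl_list_prod _ h2
      have h4 : (tsl σc (g' :: K).prod).totalDegree ≤ D := by
        refine (tsl_totalDegree _ _).trans ((totalDegree_list_prod _).trans ?_)
        rw [List.map_cons, List.sum_cons]
        simp only [List.map_cons, List.map_nil, List.sum_cons, List.sum_nil] at hD'
        omega
      obtain ⟨p, hp, hpe⟩ := exists_hit n M D _ h4 h3
      rw [eval_tsl] at hpe
      obtain ⟨h, hh, hh0⟩ := hno p hp
      apply hpe
      have h5 : (fun i => (p i : ℂ) + σc i) = fun i => ((σ₀ i + p i : ℤ) : ℂ) := by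
        funext i
        rw [hσc]
        push_cast
        ring
      rw [h5, map_list_prod]
      exact List.prod_eq_zero (List.mem_map.2 ⟨h, hh, hh0⟩)
    · exact List.mem_cons_self

theorem tests_eq (l : List (Formula n)) :
    tests l = (l.flatMap fun E => E.segs.map toTr).flatMap Tr.gps := by
  induction l with
  | nil => rfl
  | cons E l ih =>
    have h1 : ∀ l' : List (Formula n), l'.flatMap Formula.partials =
        (l'.map toTr).flatMap Tr.gps := by
      intro l'
      induction l' with
      | nil => rfl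
      | cons E' l' ih' =>
        rw [List.flatMap_cons, List.map_cons, List.flatMap_cons, ih', toTr_partials]
    rw [tests, List.flatMap_cons, List.flatMap_cons, List.flatMap_append, h1]
    congr 1

theorem hit_of_run {w κ : ℕ} : ∃ m : ℕ, ∀ (n D s : ℕ) (l : List (Formula n)),
    (∀ E ∈ l, E.Leaves (Simple w s) ∧ ∀ x, E.reads x ≤ w) →
    ((tests l).map totalDegree).sum ≤ D → ∀ (σ : Fin n → ℤ) (K : List (MvPolynomial (Fin n) ℂ)),
    Run (points n (m * (s + 1)) D) (tests l) σ K → ∀ f : MvPolynomial (Fin n) ℂ,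
    Sums l w κ f → f.totalDegree ≤ D → f ≠ 0 →
    ∃ p ∈ points n (m * (s + 1)) D, eval (fun i => ((σ i + p i : ℤ) : ℂ)) f ≠ 0 := by
  obtain ⟨m₀, hm₀⟩ := poly_hit_sh (F := ℂ) (w + 1) 2
  obtain ⟨m₁, hm₁⟩ := tree_hit_sh (F := ℂ) κ (w + 1) w w (Nat.succ_pos w)
  refine ⟨m₀ + m₁, ?_⟩
  intro n D s l hl hD σ K hrun f hf hfD hf0
  have hseg : ∀ E ∈ l, ∀ T' ∈ (toTr E).segs, GoodT (w + 1) s T' := by
    intro E hE T' hT'
    have hr := Tr.segs_red hT'
    refine ⟨(hr.lv (fun y => Lf.const s w y) (toTr_lv E (hl E hE).1)).mono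
      (fun g hg => Lf.ls hg), fun i => (hr.occ i).trans ?_⟩
    rw [toTr_occ]
    exact ((hl E hE).2 i).trans (Nat.le_succ w)
  have hadm : Adm (w + 1) s (tests l) := by
    rw [tests_eq]
    refine (Adm.flat _ ?_ (L := []) Adm.nil)
    intro T hT
    obtain ⟨E, hE, hT⟩ := List.mem_flatMap.1 hT
    rw [← toTr_segs] at hT
    exact hseg E hE T hT
  have hall := adm_run (Nat.mul_le_mul_right (s + 1) (Nat.le_add_right m₀ m₁))
    (fun σ T h1 h2 h3 => hm₀ n s σ T h1 h2 h3) hadm hD hrun
  obtain ⟨hkeep, _⟩ := hrun.keep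
  set σc : Fin n → ℂ := fun i => ((σ i : ℤ) : ℂ) with hσc
  have h1 := hm₁ n s σc (fun T => ∃ E ∈ l, T = toTr E) ?_ f ?_ hf0
  · have h2 : tsl σc f ∉ genI (fun i : Fin n => ((i.val : ℕ) : ℂ)) ((m₀ + m₁) * (s + 1)) :=
      fun hc => h1 (genI_le _ (Nat.mul_le_mul_right _ (Nat.le_add_left _ _)) hc)
    obtain ⟨p, hp, hpe⟩ := exists_hit n _ D _ ((tsl_totalDegree σc f).trans hfD) h2
    rw [eval_tsl] at hpe
    refine ⟨p, hp, ?_⟩
    have h5 : (fun i => (p i : ℂ) + σc i) = fun i => ((σ i + p i : ℤ) : ℂ) := by
      funext i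
      rw [hσc]
      push_cast
      ring
    rwa [h5] at hpe
  · rintro T ⟨E, hE, rfl⟩
    refine ⟨toTr_ml E, toTr_lv E (hl E hE).1, fun i => ?_, ?_⟩
    · rw [toTr_occ]
      exact ((hl E hE).2 i).trans (Nat.le_succ w)
    · intro T' hT' g hg hg0
      refine hkeep g (hall g ?_ hg0)
      rw [tests_eq]
      refine List.mem_flatMap.2 ⟨T', List.mem_flatMap.2 ⟨E, hE, ?_⟩, hg⟩
      rwa [← toTr_segs]
  · obtain ⟨N', T, hT, hdep, hmem⟩ := hf
    refine ⟨N', T, fun i g hg => ?_, hdep, hmem⟩
    obtain ⟨E, P, hE, rfl⟩ := hT i g hg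
    refine ⟨fun i => toTr (E i), P, fun i => ⟨E i, hE i, rfl⟩, ?_⟩
    congr 1
    congr 1
    funext i
    exact (toTr_val _).symm

end adm

section count

theorem size_pos (E : Formula n) : 1 ≤ E.size := by
  induction E with
  | leaf g => exact le_rfl
  | gate c₀ c₁ c₂ c₃ a b iha ihb => rw [Formula.size]; omega

theorem holes_length (E : Formula n) : E.holes.length + 3 ≤ 6 * E.size := by
  induction E with
  | leaf g => simp [Formula.holes, Formula.size]
  | gate c₀ c₁ c₂ c₃ a b iha ihb =>
    simp only [Formula.holes, Formula.size, List.length_append, List.length_map,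
      List.length_cons, List.length_nil]
    omega

theorem segs_length (E : Formula n) : E.segs.length ≤ 6 * E.size ^ 2 := by
  induction E with
  | leaf g => simp [Formula.segs, Formula.holes, Formula.size]
  | gate c₀ c₁ c₂ c₃ a b iha ihb =>
    have h1 := holes_length (Formula.gate c₀ c₁ c₂ c₃ a b)
    have ha := size_pos a
    have hb := size_pos b
    simp only [Formula.segs, List.length_append]
    have h2 : (Formula.gate c₀ c₁ c₂ c₃ a b).size = a.size + b.size := rfl
    rw [h2] at h1 ⊢
    nlinarith [Nat.mul_le_mul ha hb]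

theorem partials_length (E : Formula n) : E.partials.length + 2 = 2 * E.size := by
  induction E with
  | leaf g => rfl
  | gate c₀ c₁ c₂ c₃ a b iha ihb =>
    simp only [Formula.partials, Formula.size, List.length_append, List.length_cons,
      List.length_nil]
    omega

theorem holes_prop (δ : ℕ) (E : Formula n) : E.Leaves (fun g => g.totalDegree ≤ δ) →
    ∀ E' ∈ E.holes, E'.size ≤ E.size ∧ E'.Leaves (fun g => g.totalDegree ≤ δ) := by
  have hc : ∀ c : ℂ, (Formula.leaf (C c) : Formula n).Leaves (fun g => g.totalDegree ≤ δ) := by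
    intro c
    show (C c : MvPolynomial (Fin n) ℂ).totalDegree ≤ δ
    rw [totalDegree_C]
    exact Nat.zero_le _
  induction E with
  | leaf g =>
    intro hg E' hE'
    simp only [Formula.holes, List.mem_cons, List.not_mem_nil, or_false] at hE'
    rcases hE' with rfl | rfl | rfl
    · exact ⟨le_rfl, hg⟩
    · exact ⟨le_rfl, hc 0⟩
    · exact ⟨le_rfl, hc 1⟩
  | gate c₀ c₁ c₂ c₃ a b iha ihb =>
    intro hg E' hE'
    have ha := size_pos a
    simp only [Formula.holes, List.mem_append, List.mem_cons, List.not_mem_nil, or_false,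
      List.mem_map] at hE'
    rcases hE' with (rfl | rfl | rfl) | ⟨a', ha', rfl⟩ | ⟨b', hb', rfl⟩
    · exact ⟨le_rfl, hg⟩
    · exact ⟨by simp only [Formula.size]; omega, hc 0⟩
    · exact ⟨by simp only [Formula.size]; omega, hc 1⟩
    · have h1 := iha hg.1 a' ha'
      exact ⟨Nat.add_le_add_right h1.1 _, h1.2, hg.2⟩
    · have h1 := ihb hg.2 b' hb'
      exact ⟨Nat.add_le_add_left h1.1 _, hg.1, h1.2⟩

theorem segs_prop (δ : ℕ) (E : Formula n) : E.Leaves (fun g => g.totalDegree ≤ δ) →
    ∀ E' ∈ E.segs, E'.size ≤ E.size ∧ E'.Leaves (fun g => g.totalDegree ≤ δ) := by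
  induction E with
  | leaf g => exact fun hg => holes_prop δ _ hg
  | gate c₀ c₁ c₂ c₃ a b iha ihb =>
    intro hg E' hE'
    rw [Formula.segs, List.mem_append, List.mem_append] at hE'
    rcases hE' with h | h | h
    · exact holes_prop δ _ hg E' h
    · exact ⟨(iha hg.1 E' h).1.trans (Nat.le_add_right _ _), (iha hg.1 E' h).2⟩
    · exact ⟨(ihb hg.2 E' h).1.trans (Nat.le_add_left _ _), (ihb hg.2 E' h).2⟩

theorem value_degree (δ : ℕ) (E : Formula n) (h : E.Leaves (fun g => g.totalDegree ≤ δ)) :
    E.value.totalDegree ≤ δ * E.size := by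
  induction E with
  | leaf g =>
    rw [Formula.size, mul_one]
    exact h
  | gate c₀ c₁ c₂ c₃ a b iha ihb =>
    have h1 := iha h.1
    have h2 := ihb h.2
    have hC : ∀ (c : ℂ) (f : MvPolynomial (Fin n) ℂ), (C c * f).totalDegree ≤ f.totalDegree := by
      intro c f
      refine (totalDegree_mul _ _).trans ?_
      rw [totalDegree_C, zero_add]
    rw [Formula.value, Formula.size, mul_add]
    refine (totalDegree_add _ _).trans (max_le ((totalDegree_add _ _).trans (max_le
      ((totalDegree_add _ _).trans (max_le ?_ ?_)) ?_)) ?_)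
    · rw [totalDegree_C]; exact Nat.zero_le _
    · exact (hC _ _).trans (h1.trans (Nat.le_add_right _ _))
    · exact (hC _ _).trans (h2.trans (Nat.le_add_left _ _))
    · exact (hC _ _).trans ((totalDegree_mul _ _).trans (Nat.add_le_add h1 h2))

theorem partials_degree (δ : ℕ) (E : Formula n) (h : E.Leaves (fun g => g.totalDegree ≤ δ)) :
    ∀ g ∈ E.partials, g.totalDegree ≤ δ * E.size := by
  induction E with
  | leaf g => exact fun g hg => absurd hg List.not_mem_nil
  | gate c₀ c₁ c₂ c₃ a b iha ihb =>
    intro g hg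
    have hC : ∀ (c c' : ℂ) (f : MvPolynomial (Fin n) ℂ),
        (C c + C c' * f).totalDegree ≤ f.totalDegree := by
      intro c c' f
      refine (totalDegree_add _ _).trans (max_le ?_ ?_)
      · rw [totalDegree_C]; exact Nat.zero_le _
      · refine (totalDegree_mul _ _).trans ?_
        rw [totalDegree_C, zero_add]
    rw [Formula.size, mul_add]
    simp only [Formula.partials, List.mem_append, List.mem_cons, List.not_mem_nil,
      or_false] at hg
    rcases hg with (hg | hg) | (rfl | rfl)
    · exact (iha h.1 g hg).trans (Nat.le_add_right _ _)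
    · exact (ihb h.2 g hg).trans (Nat.le_add_left _ _)
    · exact (hC _ _ _).trans ((value_degree δ b h.2).trans (Nat.le_add_left _ _))
    · exact (hC _ _ _).trans ((value_degree δ a h.1).trans (Nat.le_add_right _ _))

theorem flatMap_length_le {α β : Type} (l : List α) (g : α → List β) (B : ℕ)
    (h : ∀ x ∈ l, (g x).length ≤ B) : (l.flatMap g).length ≤ l.length * B := by
  induction l with
  | nil => simp
  | cons x l ih =>
    rw [List.flatMap_cons, List.length_append, List.length_cons, add_mul, one_mul, add_comm]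
    exact Nat.add_le_add (ih fun y hy => h y (List.mem_cons_of_mem _ hy))
      (h x List.mem_cons_self)

theorem tests_count (l : List (Formula n)) (S δ : ℕ)
    (h : ∀ E ∈ l, E.size ≤ S ∧ E.Leaves (fun g => g.totalDegree ≤ δ)) :
    (tests l).length ≤ 12 * l.length * S ^ 3 ∧
      ((tests l).map totalDegree).sum ≤ 12 * l.length * S ^ 4 * δ := by
  have h1 : (tests l).length ≤ 12 * l.length * S ^ 3 := by
    refine (flatMap_length_le l _ (12 * S ^ 3) fun E hE => ?_).trans (le_of_eq (by ring))
    refine (flatMap_length_le E.segs _ (2 * S) fun E' hE' => ?_).trans ?_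
    · have h2 := partials_length E'
      have h3 := (segs_prop δ E (h E hE).2 E' hE').1
      have h4 := (h E hE).1
      omega
    · have h2 := segs_length E
      have h3 : E.size ^ 2 ≤ S ^ 2 := Nat.pow_le_pow_left (h E hE).1 2
      calc E.segs.length * (2 * S) ≤ (6 * S ^ 2) * (2 * S) :=
            Nat.mul_le_mul_right _ (by omega)
        _ = 12 * S ^ 3 := by ring
  refine ⟨h1, ?_⟩
  have h2 : ∀ d ∈ (tests l).map totalDegree, d ≤ δ * S := by
    intro d hd
    obtain ⟨g, hg, rfl⟩ := List.mem_map.1 hd
    obtain ⟨E, hE, hg⟩ := List.mem_flatMap.1 hg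
    obtain ⟨E', hE', hg⟩ := List.mem_flatMap.1 hg
    have h3 := segs_prop δ E (h E hE).2 E' hE'
    exact (partials_degree δ E' h3.2 g hg).trans (Nat.mul_le_mul_left _ (h3.1.trans (h E hE).1))
  have h3 := List.sum_le_card_nsmul _ _ h2
  rw [List.length_map, smul_eq_mul] at h3
  calc ((tests l).map totalDegree).sum ≤ (tests l).length * (δ * S) := h3
    _ ≤ (12 * l.length * S ^ 3) * (δ * S) := Nat.mul_le_mul_right _ h1
    _ = 12 * l.length * S ^ 4 * δ := by ring

end count

theorem sums_formula {w κ : ℕ} (hw : 1 ≤ w) (l : List (Formula n))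
    (T : Fin κ → Multiset (Formula n)) (hT : ∀ i, ∀ E ∈ T i, E ∈ l) :
    Sums l w κ (∑ i, ((T i).map Formula.value).prod) := by
  refine ⟨κ, fun i => (T i).map Formula.value, ?_, ?_,
    Subalgebra.sum_mem _ fun i _ => Algebra.subset_adjoin ⟨i, rfl⟩⟩
  · intro i g hg
    obtain ⟨E, hE, rfl⟩ := Multiset.mem_map.1 hg
    exact ⟨fun _ => E, X ⟨0, hw⟩, fun _ => hT i E hE, by rw [aeval_X]⟩
  · intro u hu
    have h1 : Function.Injective u := by
      intro a b hab
      exact hu.injective (by
        show ((T (u a)).map Formula.value).prod = ((T (u b)).map Formula.value).prod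
        rw [hab])
    have h2 := Fintype.card_le_of_injective u h1
    rw [Fintype.card_fin, Fintype.card_fin] at h2
    omega

/-- Let `w, κ` be fixed. There is `m` such that the following holds for every list `l` of formulas
in `n` variables which read every variable at most `w` times, and every `D` that is at least the
sum of the degrees of the polynomials in `tests l`. The search `Run` over the explicit set
`points n (m (s + 1)) D` and the list `tests l` always ends in a point `σ` such that a polynomial
`f` of `Sums l w κ` of degree at most `D` is zero if and only if it vanishes at all the points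
`σ + p`, `p ∈ points n (m (s + 1)) D`. Moreover the numbers of points and of tests, the degrees of
the tests and the coordinates of `σ` are bounded polynomially (the latter in their length), and
`Sums l w κ` contains all sums of `κ` products, of any number of factors, of members of `l`. -/
theorem result :
    (∀ w κ : ℕ, ∃ m : ℕ, ∀ (n D s : ℕ) (l : List (Formula n)),
      (∀ E ∈ l, E.Leaves (Simple w s) ∧ ∀ x, E.reads x ≤ w) →
      ((tests l).map totalDegree).sum ≤ D →
      (points n (m * (s + 1)) D).card ≤ ((D + 1) * (n * D + 1)) ^ (m * (s + 1)) ∧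
      (∃ σ K, Run (points n (m * (s + 1)) D) (tests l) σ K) ∧
      ∀ σ K, Run (points n (m * (s + 1)) D) (tests l) σ K →
        (∀ i, |σ i| ≤ (((tests l).length * (m * (s + 1) * D * (n * D + n) ^ (n - 1)) : ℕ) : ℤ)) ∧
        ∀ f : MvPolynomial (Fin n) ℂ, Sums l w κ f → f.totalDegree ≤ D →
          (f = 0 ↔ ∀ p ∈ points n (m * (s + 1)) D,
            eval (fun i => ((σ i + p i : ℤ) : ℂ)) f = 0)) ∧
    (∀ (n S δ : ℕ) (l : List (Formula n)),
      (∀ E ∈ l, E.size ≤ S ∧ E.Leaves (fun g => g.totalDegree ≤ δ)) →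
      (tests l).length ≤ 12 * l.length * S ^ 3 ∧
        ((tests l).map totalDegree).sum ≤ 12 * l.length * S ^ 4 * δ) ∧
    ∀ (n w κ : ℕ) (l : List (Formula n)) (T : Fin κ → Multiset (Formula n)), 1 ≤ w →
      (∀ i, ∀ E ∈ T i, E ∈ l) → Sums l w κ (∑ i, ((T i).map Formula.value).prod) := by
  refine ⟨?_, fun n S δ l h => tests_count l S δ h, fun n w κ l T hw hT => sums_formula hw l T hT⟩
  intro w κ
  obtain ⟨m, hm⟩ := @hit_of_run w κ
  refine ⟨m, fun n D s l hl hD => ⟨hitSet_card n _ D, exists_run _ _, fun σ K hrun =>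
    ⟨fun i => hrun.bound (fun p hp i => hitSet_bound n _ D p hp i) i, fun f hf hfD => ?_⟩⟩⟩
  constructor
  · rintro rfl p _
    rw [map_zero]
  · intro h
    by_contra hf0
    obtain ⟨p, hp, hpe⟩ := hm n D s l hl hD σ K hrun f hf hfD hf0
    exact hpe (h p hp)

end Pool.Agent.Results.MP_3c5c20_lc.PolynomialTimeReadK
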