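import Mathlib
import Pool.Agent.H530R2.Tre9

/-!
# Sums of products of read-once formulas

MP_3c5c20_lc asks for deterministic identity testing of arithmetic expressions. We give explicit
hitting sets of polynomial size for sums of `κ` products of any number of read-once formulas, for
every constant `κ` (for `κ ≥ 3` such sums were not known to have polynomial-time tests, even
non-blackbox ones). More generally, a factor may be any polynomial in `w` formulas which read
every variable at most `w` times, provided that at every gate at most `w` variables are kept in a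
bag containing the variables shared by the two arguments; and sums of `κ` products are generalised
to polynomials in products of transcendence degree at most `κ`, and to factors of products of such
polynomials.

The proof: the derivatives of the value of a formula in the variables read for the last time are
transported through the gates, whose partial derivatives do not vanish on the generator
(`TreeSeeds`, by induction on the number of reads and on the rank of the jets of the value). This
shows that the minors of the derivatives of boundedly many formulas are hit by the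
Shpilka–Volkovich generator with boundedly many seeds. The local-to-global principle for the
algebraic independence of products (`Pool.Agent.H626R2.Loc`, by helper626 and others) finishes the
proof.
-/

namespace Pool.Agent.Results.MP_3c5c20_lc.ProductsOfReadOnce

open MvPolynomial

/-- Formulas in `n` variables: the leaves are polynomials, a gate computes
`c₀ + c₁ a + c₂ b + c₃ a b` from the values `a`, `b` of its arguments (in particular `a + b`,
`a - b` and `a b`). -/
inductive Formula (n : ℕ) : Type
  | leaf (g : MvPolynomial (Fin n) ℂ) : Formula n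
  | gate (c₀ c₁ c₂ c₃ : ℂ) (a b : Formula n) : Formula n

variable {n : ℕ}

/-- the polynomial computed by a formula -/
noncomputable def Formula.value : Formula n → MvPolynomial (Fin n) ℂ
  | .leaf g => g
  | .gate c₀ c₁ c₂ c₃ a b => C c₀ + C c₁ * a.value + C c₂ * b.value + C c₃ * (a.value * b.value)

open Classical in
/-- the number of leaves in which the variable `x` occurs -/
noncomputable def Formula.reads : Formula n → Fin n → ℕ
  | .leaf g, x => if x ∈ g.vars then 1 else 0
  | .gate _ _ _ _ a b, x => a.reads x + b.reads x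

/-- all leaves have the property `L` -/
def Formula.Leaves (L : MvPolynomial (Fin n) ℂ → Prop) : Formula n → Prop
  | .leaf g => L g
  | .gate _ _ _ _ a b => a.Leaves L ∧ b.Leaves L

/-- `Bags w S E`: at every gate a bag `B` of at most `w` variables is kept, which contains the
variables occurring in both arguments, and those variables of the bag of the gate above (of `S`
for the outermost gate) which occur below the gate. -/
def Formula.Bags (w : ℕ) : Finset (Fin n) → Formula n → Prop
  | _, .leaf _ => True
  | S, .gate _ _ _ _ a b => ∃ B : Finset (Fin n), B.card ≤ w ∧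
      (∀ x, 0 < a.reads x → 0 < b.reads x → x ∈ B) ∧
      (∀ x ∈ S, 0 < a.reads x + b.reads x → x ∈ B) ∧ a.Bags w B ∧ b.Bags w B

/-- The leaves: polynomials in one variable; and polynomials which have at most `2 ^ s` monomials
or all of whose monomials involve at most `s` variables, and in which every variable occurs with
at most `w` different exponents. -/
def Simple (w s : ℕ) (g : MvPolynomial (Fin n) ℂ) : Prop :=
  (∃ (p : Polynomial ℂ) (x : Fin n), g = Polynomial.aeval (X x) p) ∨
    ((g.support.card ≤ 2 ^ s ∨ ∀ a ∈ g.support, a.support.card ≤ s) ∧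
      ∀ x, (g.support.image fun a => a x).card ≤ w)

/-- a polynomial in `w` formulas over simple leaves, which read every variable at most `w` times
and have bags of at most `w` variables -/
def Factor (w s : ℕ) (g : MvPolynomial (Fin n) ℂ) : Prop :=
  ∃ (E : Fin w → Formula n) (P : MvPolynomial (Fin w) ℂ),
    (∀ i, (E i).Leaves (Simple w s) ∧ (∀ x, (E i).reads x ≤ w) ∧ (E i).Bags w ∅) ∧
      g = aeval (fun i => (E i).value) P

/-- a polynomial in finitely many products of any number of members of `Factor w s`, no `κ + 1` of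
which are algebraically independent -/
def Sums (w s κ : ℕ) (f : MvPolynomial (Fin n) ℂ) : Prop :=
  ∃ (N : ℕ) (T : Fin N → Multiset (MvPolynomial (Fin n) ℂ)), (∀ i, ∀ g ∈ T i, Factor w s g) ∧
    (∀ u : Fin (κ + 1) → Fin N, ¬ AlgebraicIndependent ℂ (fun a => (T (u a)).prod)) ∧
    f ∈ Algebra.adjoin ℂ (Set.range fun i => (T i).prod)

/-- The point with seeds `y, z ∈ ℕ^m`: its `i`-th coordinate is
`∑_l y_l ∏_{k ≠ i} (z_l - k)` (the Shpilka–Volkovich generator with nodes `0, …, n-1`). -/
def point (n m : ℕ) (y z : Fin m → ℕ) : Fin n → ℤ :=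
  fun i => ∑ l : Fin m, (y l : ℤ) * ∏ k ∈ Finset.univ.erase i, ((z l : ℤ) - (k.val : ℤ))

/-- The explicit set of all points with seeds `y ∈ {0,…,d}^m`, `z ∈ {0,…,nd}^m`. -/
def points (n m d : ℕ) : Finset (Fin n → ℤ) :=
  ((Fintype.piFinset fun _ : Fin m => Finset.range (d + 1)) ×ˢ
    (Fintype.piFinset fun _ : Fin m => Finset.range (n * d + 1))).image
    fun yz => point n m yz.1 yz.2

open Pool.Agent.H530R2

/-- translation to the formulas of `Pool.Agent.H530R2` -/
noncomputable def toTr : Formula n → Tr ℂ n
  | .leaf g => .leaf g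
  | .gate c₀ c₁ c₂ c₃ a b =>
    .gate (C c₀ + C c₁ * X 0 + C c₂ * X 1 + C c₃ * (X 0 * X 1)) (toTr a) (toTr b)

theorem toTr_val (E : Formula n) : (toTr E).val = E.value := by
  induction E with
  | leaf g => rfl
  | gate c₀ c₁ c₂ c₃ a b iha ihb =>
    simp only [toTr, Tr.val, Formula.value, map_add, map_mul, algHom_C, aeval_X, iha, ihb]
    rfl

theorem toTr_occ (E : Formula n) (x : Fin n) : (toTr E).occ x = E.reads x := by
  induction E with
  | leaf g => simp only [toTr, Tr.occ, Formula.reads]
  | gate c₀ c₁ c₂ c₃ a b iha ihb => simp only [toTr, Tr.occ, Formula.reads, iha, ihb]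

theorem toTr_ml (E : Formula n) : (toTr E).ML := by
  induction E with
  | leaf g => trivial
  | gate c₀ c₁ c₂ c₃ a b iha ihb => exact ⟨iha, ihb, c₀, c₁, c₂, c₃, rfl⟩

theorem mem_vs (E : Formula n) (x : Fin n) : x ∈ (toTr E).vs ↔ 0 < E.reads x := by
  classical
  induction E with
  | leaf g =>
    simp only [toTr, Tr.vs, Formula.reads]
    split_ifs with h
    · simp [h]
    · simp [h]
  | gate c₀ c₁ c₂ c₃ a b iha ihb =>
    simp only [toTr, Tr.vs, Formula.reads, Finset.mem_union, iha, ihb]
    omega

theorem toTr_bag {w : ℕ} (E : Formula n) : ∀ S : Finset (Fin n), E.Bags w S →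
    Bag w S (toTr E) := by
  induction E with
  | leaf g => exact fun S _ => trivial
  | gate c₀ c₁ c₂ c₃ a b iha ihb =>
    rintro S ⟨B, h1, h2, h3, h4, h5⟩
    refine ⟨B, h1, ?_, ?_, iha B h4, ihb B h5⟩
    · intro x hx
      rw [Finset.mem_inter, mem_vs, mem_vs] at hx
      exact h2 x hx.1 hx.2
    · intro x hx
      rw [Finset.mem_inter, Finset.mem_union, mem_vs, mem_vs] at hx
      refine h3 x hx.1 ?_
      omega

theorem simple_lf {w s : ℕ} {g : MvPolynomial (Fin n) ℂ} (h : Simple w s g) :
    g ∈ Lf n ℂ s w := by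
  classical
  rcases h with ⟨p, x, rfl⟩ | ⟨h, hw⟩
  · refine Or.inl ⟨x, ?_⟩
    rw [Polynomial.aeval_eq_sum_range]
    refine Subalgebra.sum_mem _ fun e _ => Subalgebra.smul_mem _ (Subalgebra.pow_mem _ ?_ _) _
    exact X_mem_supported.2 rfl
  · refine Or.inr ⟨?_, fun x => ?_⟩
    · rcases h with h | h
      · refine ⟨g.support, ?_, fun x hx => ⟨x, hx, 0, (add_zero x).symm, by simp⟩⟩
        exact h.trans (Nat.pow_le_pow_right (by omega) (by omega))
      · refine ⟨{0}, by rw [Finset.card_singleton]; exact Nat.one_le_two_pow, fun x hx =>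
          ⟨0, Finset.mem_singleton_self _, x, (zero_add x).symm, ?_⟩⟩
        have := h x hx
        omega
    · refine le_trans (le_of_eq ?_) ((hw x).trans (Nat.le_succ w))
      congr!

theorem toTr_lv {w s : ℕ} (E : Formula n) (h : E.Leaves (Simple w s)) :
    (toTr E).Lv (Lf n ℂ s w) := by
  induction E with
  | leaf g => exact simple_lf h
  | gate c₀ c₁ c₂ c₃ a b iha ihb => exact ⟨iha h.1, ihb h.2⟩

theorem factor_polyIn {w s : ℕ} {g : MvPolynomial (Fin n) ℂ} (h : Factor w s g) :
    PolyIn (fun T : Tr ℂ n => T.ML ∧ T.Lv (Lf n ℂ s w) ∧ (∀ i, T.occ i ≤ w + 1) ∧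
      Bag w ∅ T) w g := by
  obtain ⟨E, P, hE, rfl⟩ := h
  refine ⟨fun i => toTr (E i), P, fun i => ⟨toTr_ml _, toTr_lv _ (hE i).1, fun x => ?_,
    toTr_bag _ _ (hE i).2.2⟩, ?_⟩
  · rw [toTr_occ]
    exact ((hE i).2.1 x).trans (Nat.le_succ w)
  · congr 1
    congr 1
    funext i
    exact (toTr_val _).symm

theorem bags_of_readOnce (E : Formula n) (h : ∀ x, E.reads x ≤ 1) (S : Finset (Fin n)) :
    (∀ x ∈ S, E.reads x = 0) → E.Bags 1 S := by
  intro hS
  induction E generalizing S with
  | leaf g => trivial
  | gate c₀ c₁ c₂ c₃ a b iha ihb =>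
    refine ⟨∅, by simp, fun x h1 h2 => ?_, fun x hx h1 => ?_, iha (fun x => ?_) ∅ (by simp),
      ihb (fun x => ?_) ∅ (by simp)⟩
    · have h3 : a.reads x + b.reads x ≤ 1 := h x
      omega
    · have h3 : a.reads x + b.reads x = 0 := hS x hx
      omega
    · have h3 : a.reads x + b.reads x ≤ 1 := h x
      omega
    · have h3 : a.reads x + b.reads x ≤ 1 := h x
      omega

theorem factor_readOnce {s : ℕ} (E : Formula n) (hE : E.Leaves (Simple 1 s))
    (h : ∀ x, E.reads x ≤ 1) : Factor 1 s E.value :=
  ⟨fun _ => E, X 0, fun _ => ⟨hE, h, bags_of_readOnce E h ∅ (by simp)⟩, by rw [aeval_X]⟩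

theorem sums_readOnce {s κ : ℕ} (T : Fin κ → Multiset (Formula n))
    (hT : ∀ i, ∀ E ∈ T i, E.Leaves (Simple 1 s) ∧ ∀ x, E.reads x ≤ 1) :
    Sums 1 s κ (∑ i, ((T i).map Formula.value).prod) := by
  refine ⟨κ, fun i => (T i).map Formula.value, ?_, ?_,
    Subalgebra.sum_mem _ fun i _ => Algebra.subset_adjoin ⟨i, rfl⟩⟩
  · intro i g hg
    obtain ⟨E, hE, rfl⟩ := Multiset.mem_map.1 hg
    exact factor_readOnce E (hT i E hE).1 (hT i E hE).2
  · intro u hu
    have h1 : Function.Injective u := by
      intro a b hab
      exact hu.injective (by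
        show ((T (u a)).map Formula.value).prod = ((T (u b)).map Formula.value).prod
        rw [hab])
    have h2 := Fintype.card_le_of_injective u h1
    rw [Fintype.card_fin, Fintype.card_fin] at h2
    omega

/-- For all bounds `w, κ` there is `m` such that for all `n, d, s` the explicit set
`points n (m (s + 1)) d ⊆ ℤ^n` with at most `((d+1)(nd+1))^(m (s+1))` elements hits every
polynomial of total degree at most `d` in `n` variables that divides a product of nonzero members
of `Sums w s κ`. The class `Sums 1 s κ` contains all sums of `κ` products, of any number of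
factors, of read-once formulas. -/
theorem result :
    (∀ w κ : ℕ, ∃ m : ℕ, ∀ n d s : ℕ,
      (points n (m * (s + 1)) d).card ≤ ((d + 1) * (n * d + 1)) ^ (m * (s + 1)) ∧
      (∀ p ∈ points n (m * (s + 1)) d, ∀ i,
        |p i| ≤ ((m * (s + 1) * d * (n * d + n) ^ (n - 1) : ℕ) : ℤ)) ∧
      ∀ (f : MvPolynomial (Fin n) ℂ) (N : ℕ) (F : Fin N → MvPolynomial (Fin n) ℂ),
        (∀ j, Sums w s κ (F j)) → (∀ j, F j ≠ 0) → f ∣ ∏ j, F j → f.totalDegree ≤ d →
        ∃ p ∈ points n (m * (s + 1)) d, MvPolynomial.eval (fun i => (p i : ℂ)) f ≠ 0) ∧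
    ∀ (n s κ : ℕ) (T : Fin κ → Multiset (Formula n)),
      (∀ i, ∀ E ∈ T i, E.Leaves (Simple 1 s) ∧ ∀ x, E.reads x ≤ 1) →
      Sums 1 s κ (∑ i, ((T i).map Formula.value).prod) := by
  refine ⟨?_, fun n s κ T hT => sums_readOnce T hT⟩
  intro w κ
  obtain ⟨m, hm⟩ := bag_hit (F := ℂ) κ (w + 1) w w w (Nat.succ_pos w)
  refine ⟨m, fun n d s => ⟨hitSet_card n _ d, fun p hp i => hitSet_bound n _ d p hp i, ?_⟩⟩
  intro f N F hF hF0 hdvd hd
  refine exists_hit n _ d f hd ?_
  intro hf
  have h1 := Ideal.mem_of_dvd _ hdvd hf
  have hprime := genI_prime (fun i : Fin n => ((i.val : ℕ) : ℂ)) (m * (s + 1))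
  rw [Ideal.IsPrime.prod_mem_iff] at h1
  obtain ⟨j, _, h1⟩ := h1
  refine hm n s (F j) ?_ (hF0 j) h1
  obtain ⟨N', T, hT, hdep, hmem⟩ := hF j
  exact ⟨N', T, fun i g hg => factor_polyIn (hT i g hg), hdep, hmem⟩

end Pool.Agent.Results.MP_3c5c20_lc.ProductsOfReadOnce
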