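import Mathlib
import Pool.Agent.H530R2.Rnk2

/-!
# Formulas reading every variable boundedly often

MP_3c5c20_lc asks for deterministic identity testing of arithmetic expressions. We give explicit
hitting sets for arithmetic formulas in which every variable occurs at most `w` times, for every
constant `w`. The formulas need not be multilinear. The size of the hitting set is polynomial with
exponent `O(ρ)`, where the rank `ρ` is the Strahler number of the formula when only product gates
count. It is at most the logarithm of the size; hence the hitting set has always quasi-polynomial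
size, and it has polynomial size for formulas of bounded rank, for instance for formulas of
constant depth with gates of unbounded fan-in and, at any depth, for formulas in which one argument
of every product gate has bounded rank. More generally the theorem treats sums of `κ` products, of
any number of factors, where every factor is a polynomial in `w` such formulas, and polynomials in
such products of transcendence degree at most `κ`, and factors of products of such polynomials.

The proof: by induction on the number of reads and on the rank, values of formulas are hit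
(`ValR.all`): descending along a path whose siblings have smaller rank or do not depend on the
variables read for the last time, one finds a variable such that the derivative of the value is a
product of values of formulas of smaller rank and of a minor of formulas with fewer reads. The
minors of boundedly many formulas with fewer reads are hit by the theorem `TreeSeeds.all`, whose
hypothesis on the partial derivatives of the gates is provided by the induction. The
local-to-global principle for the algebraic independence of products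
(`Pool.Agent.H626R2.Loc`, by helper626 and others) finishes the proof.
-/

namespace Pool.Agent.Results.MP_3c5c20_lc.ReadKFormulas

open MvPolynomial

/-- Formulas in `n` variables: the leaves are polynomials, a gate computes
`c₀ + c₁ a + c₂ b + c₃ a b` from the values `a`, `b` of its arguments (in particular `a + b`,
`a - b` and `a b`). -/
inductive Formula (n : ℕ) : Type
  | leaf (g : MvPolynomial (Fin n) ℂ) : Formula n
  | gate (c₀ c₁ c₂ c₃ : ℂ) (a b : Formula n) : Formula n

variable {n : ℕ}

/-- the polynomial computed by a formula -/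
noncomputable def Formula.value : Formula n → MvPolynomial (Fin n) ℂ
  | .leaf g => g
  | .gate c₀ c₁ c₂ c₃ a b => C c₀ + C c₁ * a.value + C c₂ * b.value + C c₃ * (a.value * b.value)

open Classical in
/-- the number of leaves in which the variable `x` occurs -/
noncomputable def Formula.reads : Formula n → Fin n → ℕ
  | .leaf g, x => if x ∈ g.vars then 1 else 0
  | .gate _ _ _ _ a b, x => a.reads x + b.reads x

/-- all leaves have the property `L` -/
def Formula.Leaves (L : MvPolynomial (Fin n) ℂ → Prop) : Formula n → Prop
  | .leaf g => L g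
  | .gate _ _ _ _ a b => a.Leaves L ∧ b.Leaves L

/-- the number of leaves -/
def Formula.size : Formula n → ℕ
  | .leaf _ => 1
  | .gate _ _ _ _ a b => a.size + b.size

open Classical in
/-- The rank of a formula: `0` for leaves. At a gate with `c₃ = 0` it is the maximum of the ranks
of the arguments. At a gate with `c₃ ≠ 0` it is this maximum if the ranks of the arguments are
different, and it is larger by one if they are equal. -/
noncomputable def Formula.rank : Formula n → ℕ
  | .leaf _ => 0
  | .gate _ _ _ c₃ a b =>
    if c₃ ≠ 0 ∧ a.rank = b.rank then a.rank + 1 else max a.rank b.rank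

/-- The leaves: polynomials in one variable; and polynomials which have at most `2 ^ s` monomials
or all of whose monomials involve at most `s` variables, and in which every variable occurs with
at most `w` different exponents. -/
def Simple (w s : ℕ) (g : MvPolynomial (Fin n) ℂ) : Prop :=
  (∃ (p : Polynomial ℂ) (x : Fin n), g = Polynomial.aeval (X x) p) ∨
    ((g.support.card ≤ 2 ^ s ∨ ∀ a ∈ g.support, a.support.card ≤ s) ∧
      ∀ x, (g.support.image fun a => a x).card ≤ w)

/-- a polynomial in `w` formulas over simple leaves, of rank at most `t`, which read every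
variable at most `w` times -/
def Factor (w s t : ℕ) (g : MvPolynomial (Fin n) ℂ) : Prop :=
  ∃ (E : Fin w → Formula n) (P : MvPolynomial (Fin w) ℂ),
    (∀ i, (E i).Leaves (Simple w s) ∧ (∀ x, (E i).reads x ≤ w) ∧ (E i).rank ≤ t) ∧
      g = aeval (fun i => (E i).value) P

/-- a polynomial in finitely many products of any number of members of `Factor w s t`, no `κ + 1`
of which are algebraically independent -/
def Sums (w s t κ : ℕ) (f : MvPolynomial (Fin n) ℂ) : Prop :=
  ∃ (N : ℕ) (T : Fin N → Multiset (MvPolynomial (Fin n) ℂ)), (∀ i, ∀ g ∈ T i, Factor w s t g) ∧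
    (∀ u : Fin (κ + 1) → Fin N, ¬ AlgebraicIndependent ℂ (fun a => (T (u a)).prod)) ∧
    f ∈ Algebra.adjoin ℂ (Set.range fun i => (T i).prod)

/-- The point with seeds `y, z ∈ ℕ^m`: its `i`-th coordinate is
`∑_l y_l ∏_{k ≠ i} (z_l - k)` (the Shpilka–Volkovich generator with nodes `0, …, n-1`). -/
def point (n m : ℕ) (y z : Fin m → ℕ) : Fin n → ℤ :=
  fun i => ∑ l : Fin m, (y l : ℤ) * ∏ k ∈ Finset.univ.erase i, ((z l : ℤ) - (k.val : ℤ))

/-- The explicit set of all points with seeds `y ∈ {0,…,d}^m`, `z ∈ {0,…,nd}^m`. -/
def points (n m d : ℕ) : Finset (Fin n → ℤ) :=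
  ((Fintype.piFinset fun _ : Fin m => Finset.range (d + 1)) ×ˢ
    (Fintype.piFinset fun _ : Fin m => Finset.range (n * d + 1))).image
    fun yz => point n m yz.1 yz.2

open Pool.Agent.H530R2

/-- translation to the formulas of `Pool.Agent.H530R2` -/
noncomputable def toTr : Formula n → Tr ℂ n
  | .leaf g => .leaf g
  | .gate c₀ c₁ c₂ c₃ a b =>
    .gate (C c₀ + C c₁ * X 0 + C c₂ * X 1 + C c₃ * (X 0 * X 1)) (toTr a) (toTr b)

theorem toTr_val (E : Formula n) : (toTr E).val = E.value := by
  induction E with
  | leaf g => rfl
  | gate c₀ c₁ c₂ c₃ a b iha ihb =>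
    simp only [toTr, Tr.val, Formula.value, map_add, map_mul, algHom_C, aeval_X, iha, ihb]
    rfl

theorem toTr_occ (E : Formula n) (x : Fin n) : (toTr E).occ x = E.reads x := by
  induction E with
  | leaf g => simp only [toTr, Tr.occ, Formula.reads]
  | gate c₀ c₁ c₂ c₃ a b iha ihb => simp only [toTr, Tr.occ, Formula.reads, iha, ihb]

theorem toTr_ml (E : Formula n) : (toTr E).ML := by
  induction E with
  | leaf g => trivial
  | gate c₀ c₁ c₂ c₃ a b iha ihb => exact ⟨iha, ihb, c₀, c₁, c₂, c₃, rfl⟩

theorem toTr_rk (E : Formula n) : (toTr E).rk = E.rank := by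
  classical
  induction E with
  | leaf g => rfl
  | gate c₀ c₁ c₂ c₃ a b iha ihb =>
    simp only [toTr, Tr.rk, Formula.rank, cpr_affine, iha, ihb, stf]
    by_cases h : c₃ = 0
    · rw [if_pos h, if_neg (fun hc => hc.1 h)]
    · rw [if_neg h]
      by_cases h' : a.rank = b.rank
      · rw [if_pos h', if_pos ⟨h, h'⟩]
      · rw [if_neg h', if_neg (fun hc => h' hc.2)]

theorem two_pow_rank (E : Formula n) : 2 ^ E.rank ≤ E.size := by
  classical
  induction E with
  | leaf g => exact le_rfl
  | gate c₀ c₁ c₂ c₃ a b iha ihb =>
    simp only [Formula.rank, Formula.size]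
    split_ifs with h
    · rw [pow_succ]
      have h1 := h.2
      rw [← h1] at ihb
      omega
    · rcases le_total a.rank b.rank with h1 | h1
      · rw [max_eq_right h1]
        omega
      · rw [max_eq_left h1]
        omega

theorem simple_lf {w s : ℕ} {g : MvPolynomial (Fin n) ℂ} (h : Simple w s g) :
    g ∈ Lf n ℂ s w := by
  classical
  rcases h with ⟨p, x, rfl⟩ | ⟨h, hw⟩
  · refine Or.inl ⟨x, ?_⟩
    rw [Polynomial.aeval_eq_sum_range]
    refine Subalgebra.sum_mem _ fun e _ => Subalgebra.smul_mem _ (Subalgebra.pow_mem _ ?_ _) _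
    exact X_mem_supported.2 rfl
  · refine Or.inr ⟨?_, fun x => ?_⟩
    · rcases h with h | h
      · refine ⟨g.support, ?_, fun x hx => ⟨x, hx, 0, (add_zero x).symm, by simp⟩⟩
        exact h.trans (Nat.pow_le_pow_right (by omega) (by omega))
      · refine ⟨{0}, by rw [Finset.card_singleton]; exact Nat.one_le_two_pow, fun x hx =>
          ⟨0, Finset.mem_singleton_self _, x, (zero_add x).symm, ?_⟩⟩
        have := h x hx
        omega
    · refine le_trans (le_of_eq ?_) ((hw x).trans (Nat.le_succ w))
      congr!

theorem toTr_lv {w s : ℕ} (E : Formula n) (h : E.Leaves (Simple w s)) :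
    (toTr E).Lv (Lf n ℂ s w) := by
  induction E with
  | leaf g => exact simple_lf h
  | gate c₀ c₁ c₂ c₃ a b iha ihb => exact ⟨iha h.1, ihb h.2⟩

theorem factor_polyIn {w s t : ℕ} {g : MvPolynomial (Fin n) ℂ} (h : Factor w s t g) :
    PolyIn (fun T : Tr ℂ n => T.ML ∧ T.Lv (Lf n ℂ s w) ∧ (∀ i, T.occ i ≤ w + 1) ∧
      T.rk ≤ t) w g := by
  obtain ⟨E, P, hE, rfl⟩ := h
  refine ⟨fun i => toTr (E i), P, fun i => ⟨toTr_ml _, toTr_lv _ (hE i).1, fun x => ?_, ?_⟩, ?_⟩
  · rw [toTr_occ]
    exact ((hE i).2.1 x).trans (Nat.le_succ w)
  · rw [toTr_rk]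
    exact (hE i).2.2
  · congr 1
    congr 1
    funext i
    exact (toTr_val _).symm

theorem factor_formula {w s t : ℕ} (hw : 1 ≤ w) (E : Formula n) (hE : E.Leaves (Simple w s))
    (h : ∀ x, E.reads x ≤ w) (ht : E.rank ≤ t) : Factor w s t E.value :=
  ⟨fun _ => E, X ⟨0, hw⟩, fun _ => ⟨hE, h, ht⟩, by rw [aeval_X]⟩

theorem sums_formula {w s t κ : ℕ} (hw : 1 ≤ w) (T : Fin κ → Multiset (Formula n))
    (hT : ∀ i, ∀ E ∈ T i, E.Leaves (Simple w s) ∧ (∀ x, E.reads x ≤ w) ∧ E.rank ≤ t) :
    Sums w s t κ (∑ i, ((T i).map Formula.value).prod) := by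
  refine ⟨κ, fun i => (T i).map Formula.value, ?_, ?_,
    Subalgebra.sum_mem _ fun i _ => Algebra.subset_adjoin ⟨i, rfl⟩⟩
  · intro i g hg
    obtain ⟨E, hE, rfl⟩ := Multiset.mem_map.1 hg
    exact factor_formula hw E (hT i E hE).1 (hT i E hE).2.1 (hT i E hE).2.2
  · intro u hu
    have h1 : Function.Injective u := by
      intro a b hab
      exact hu.injective (by
        show ((T (u a)).map Formula.value).prod = ((T (u b)).map Formula.value).prod
        rw [hab])
    have h2 := Fintype.card_le_of_injective u h1
    rw [Fintype.card_fin, Fintype.card_fin] at h2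
    omega

/-- For all bounds `w ≥ 1`, `κ` there is `m` such that for all `n, d, s, t` the explicit set
`points n (m (t + 1) (s + 1)) d ⊆ ℤ^n` with at most `((d+1)(nd+1))^(m (t+1) (s+1))` elements hits
every polynomial of total degree at most `d` in `n` variables that divides a product of nonzero
members of `Sums w s t κ`. This class contains all sums of `κ` products, of any number of factors,
of formulas of rank at most `t` which read every variable at most `w` times; and the rank is at
most the logarithm of the size. -/
theorem result :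
    (∀ w κ : ℕ, ∃ m : ℕ, ∀ n d s t : ℕ,
      (points n (m * (t + 1) * (s + 1)) d).card ≤
        ((d + 1) * (n * d + 1)) ^ (m * (t + 1) * (s + 1)) ∧
      (∀ p ∈ points n (m * (t + 1) * (s + 1)) d, ∀ i,
        |p i| ≤ ((m * (t + 1) * (s + 1) * d * (n * d + n) ^ (n - 1) : ℕ) : ℤ)) ∧
      ∀ (f : MvPolynomial (Fin n) ℂ) (N : ℕ) (F : Fin N → MvPolynomial (Fin n) ℂ),
        (∀ j, Sums w s t κ (F j)) → (∀ j, F j ≠ 0) → f ∣ ∏ j, F j → f.totalDegree ≤ d →
        ∃ p ∈ points n (m * (t + 1) * (s + 1)) d,
          MvPolynomial.eval (fun i => (p i : ℂ)) f ≠ 0) ∧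
    (∀ (n w s t κ : ℕ) (T : Fin κ → Multiset (Formula n)), 1 ≤ w →
      (∀ i, ∀ E ∈ T i, E.Leaves (Simple w s) ∧ (∀ x, E.reads x ≤ w) ∧ E.rank ≤ t) →
      Sums w s t κ (∑ i, ((T i).map Formula.value).prod)) ∧
    ∀ (n : ℕ) (E : Formula n), 2 ^ E.rank ≤ E.size := by
  refine ⟨?_, fun n w s t κ T hw hT => sums_formula hw T hT, fun n E => two_pow_rank E⟩
  intro w κ
  obtain ⟨m, hm⟩ := rank_hit (F := ℂ) κ (w + 1) w w (Nat.succ_pos w)
  refine ⟨m, fun n d s t => ⟨hitSet_card n _ d, fun p hp i => hitSet_bound n _ d p hp i, ?_⟩⟩
  intro f N F hF hF0 hdvd hd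
  refine exists_hit n _ d f hd ?_
  intro hf
  have h1 := Ideal.mem_of_dvd _ hdvd hf
  have hprime := genI_prime (fun i : Fin n => ((i.val : ℕ) : ℂ)) (m * (t + 1) * (s + 1))
  rw [Ideal.IsPrime.prod_mem_iff] at h1
  obtain ⟨j, _, h1⟩ := h1
  refine hm n s t (F j) ?_ (hF0 j) h1
  obtain ⟨N', T, hT, hdep, hmem⟩ := hF j
  exact ⟨N', T, fun i g hg => factor_polyIn (hT i g hg), hdep, hmem⟩

end Pool.Agent.Results.MP_3c5c20_lc.ReadKFormulas
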