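import Mathlib
import Pool.Agent.H530R2.SubPts

/-!
# A subexponential deterministic identity test for all arithmetic expressions

For all `n` and `s` there is an explicit set of at most `(10 r (n+1)(s+1))^(14 r)` integer points,
`r = ⌊√s⌋ + 1`, which detects every nonzero arithmetic expression with at most `s` occurrences of
variables `x_1, …, x_n` (and any number of constants).
-/

namespace Pool.Agent.Results.MP_3c5c20_lc.SubexponentialTest

/-- Arithmetic expressions in `n` variables with constants from `F`. -/
inductive Expr (F : Type*) (n : ℕ) where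
  | var (i : Fin n) : Expr F n
  | const (c : F) : Expr F n
  | add (e f : Expr F n) : Expr F n
  | sub (e f : Expr F n) : Expr F n
  | mul (e f : Expr F n) : Expr F n

/-- The polynomial defined by an expression. -/
noncomputable def Expr.poly {F : Type*} [Field F] {n : ℕ} : Expr F n → MvPolynomial (Fin n) F
  | .var i => MvPolynomial.X i
  | .const c => MvPolynomial.C c
  | .add e f => e.poly + f.poly
  | .sub e f => e.poly - f.poly
  | .mul e f => e.poly * f.poly

/-- The number of occurrences of variables in an expression. -/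
def Expr.size {F : Type*} {n : ℕ} : Expr F n → ℕ
  | .var _ => 1
  | .const _ => 0
  | .add e f => e.size + f.size
  | .sub e f => e.size + f.size
  | .mul e f => e.size + f.size

/-- `r = ⌊√s⌋ + 1` -/
def rad (s : ℕ) : ℕ := Nat.sqrt s + 1

/-- `t = ⌊s / r⌋` -/
def cnt (s : ℕ) : ℕ := s / rad s

/-- `brk` cuts the variables `x_0, …, x_(n-1)` into `t + 1` consecutive blocks: the variable `x_i`
is in the block whose number is the number of the break points which are at most `i`. -/
def block {n t : ℕ} (brk : Fin t → Fin (n + 1)) (i : Fin n) : Fin (t + 1) :=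
  ⟨(Finset.univ.filter fun l : Fin t => (brk l : ℕ) ≤ i).card, by
    refine Nat.lt_succ_of_le ((Finset.card_le_univ _).trans ?_)
    simp⟩

/-- The point given by positions `pos` with values `val`, by break points `brk`, and by seeds `y`
and `u`: the `i`-th coordinate is the value at the position `i` if `i` is one of the positions,
and `∑_k y_k u_b^((i+1)k)` otherwise, where `b` is the number of the block of `i`. -/
def point {n t ℓ : ℕ} (pos : Fin t → Fin (n + 1)) (val : Fin t → ℕ)
    (brk : Fin t → Fin (n + 1)) (y : Fin ℓ → ℕ) (u : Fin (t + 1) → ℕ) : Fin n → ℤ :=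
  fun i => if ∃ l, (pos l : ℕ) = i then ∑ l, (if (pos l : ℕ) = i then (val l : ℤ) else 0)
    else ∑ k : Fin ℓ, (y k : ℤ) * (u (block brk i) : ℤ) ^ (((i : ℕ) + 1) * (k : ℕ))

/-- All points with `t = cnt s`, `ℓ = 10 r`, values and seeds `y` in `{0, …, s}` and seeds `u` in
`{0, …, 10 r n s}`, where `r = rad s`. -/
def points (n s : ℕ) : Finset (Fin n → ℤ) :=
  (Finset.univ : Finset ((Fin (cnt s) → Fin (n + 1)) × (Fin (cnt s) → Fin (s + 1)) ×
      (Fin (cnt s) → Fin (n + 1)) × (Fin (10 * rad s) → Fin (s + 1)) ×
      (Fin (cnt s + 1) → Fin (10 * rad s * n * s + 1)))).image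
    fun q => point q.1 (fun l => (q.2.1 l : ℕ)) q.2.2.1 (fun k => (q.2.2.2.1 k : ℕ))
      (fun c => (q.2.2.2.2 c : ℕ))

theorem cnt_le (s : ℕ) : cnt s ≤ Nat.sqrt s := by
  unfold cnt rad
  have h1 := Nat.lt_succ_sqrt s
  apply Nat.le_of_lt_succ
  rw [Nat.div_lt_iff_lt_mul (by omega)]
  exact h1

theorem expr_fm {F : Type*} [Field F] {n : ℕ} (E : Expr F n) :
    ∃ w : Fin n → ℕ, Pool.Agent.H530R2.Fm w E.poly ∧ ∑ i, w i = E.size := by
  classical
  induction E with
  | var i => exact ⟨Pi.single i 1, Pool.Agent.H530R2.Fm.var i, by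
      rw [Finset.sum_pi_single', if_pos (Finset.mem_univ _)]; rfl⟩
  | const c => exact ⟨0, Pool.Agent.H530R2.Fm.const c, by simp [Expr.size]⟩
  | add e f he hf =>
    obtain ⟨w, h1, h2⟩ := he
    obtain ⟨w', h1', h2'⟩ := hf
    exact ⟨w + w', h1.add h1', by simp [Finset.sum_add_distrib, h2, h2', Expr.size]⟩
  | sub e f he hf =>
    obtain ⟨w, h1, h2⟩ := he
    obtain ⟨w', h1', h2'⟩ := hf
    refine ⟨w + (0 + w'), ?_, by simp [Finset.sum_add_distrib, h2, h2', Expr.size]⟩
    have h3 := h1.add ((Pool.Agent.H530R2.Fm.const (-1 : F)).mul h1')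
    have h4 : Expr.poly (Expr.sub e f) = e.poly + MvPolynomial.C (-1) * f.poly := by
      simp [Expr.poly, sub_eq_add_neg]
    rw [h4]
    exact h3
  | mul e f he hf =>
    obtain ⟨w, h1, h2⟩ := he
    obtain ⟨w', h1', h2'⟩ := hf
    exact ⟨w + w', h1.mul h1', by simp [Finset.sum_add_distrib, h2, h2', Expr.size]⟩

theorem points_card (n s : ℕ) :
    (points n s).card ≤ (10 * rad s * (n + 1) * (s + 1)) ^ (14 * rad s) := by
  unfold points
  refine Finset.card_image_le.trans ?_
  rw [Finset.card_univ]
  simp only [Fintype.card_prod, Fintype.card_pi, Fintype.card_fin, Finset.prod_const,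
    Finset.card_univ]
  set r := rad s with hr
  have hr1 : 1 ≤ r := by simp [hr, rad]
  have hc : cnt s ≤ r := (cnt_le s).trans (by simp [hr, rad])
  have hc1 : cnt s + 1 ≤ r := by
    have := cnt_le s
    simp only [hr, rad]
    omega
  set B := 10 * r * (n + 1) * (s + 1) with hB
  have hB1 : 1 ≤ B := by
    have : 0 < B := by positivity
    omega
  have h1 : n + 1 ≤ B := by
    calc n + 1 = 1 * (n + 1) * 1 := by ring
      _ ≤ 10 * r * (n + 1) * (s + 1) := by gcongr <;> omega
  have h2 : s + 1 ≤ B := by
    calc s + 1 = 1 * 1 * (s + 1) := by ring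
      _ ≤ 10 * r * (n + 1) * (s + 1) := by gcongr <;> omega
  have h3 : 10 * r * n * s + 1 ≤ B := by
    have : 10 * r * (n + 1) * (s + 1) = 10 * r * n * s + 10 * r * n + 10 * r * s + 10 * r := by
      ring
    have h4 : 1 ≤ 10 * r := by omega
    omega
  calc (n + 1) ^ cnt s * ((s + 1) ^ cnt s * ((n + 1) ^ cnt s * ((s + 1) ^ (10 * r) *
        (10 * r * n * s + 1) ^ (cnt s + 1))))
      ≤ B ^ r * (B ^ r * (B ^ r * (B ^ (10 * r) * B ^ r))) := by
        gcongr
    _ = B ^ (14 * r) := by
        rw [← pow_add, ← pow_add, ← pow_add, ← pow_add]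
        congr 1
        ring

theorem points_bound (n s : ℕ) (p : Fin n → ℤ) (hp : p ∈ points n s) (i : Fin n) :
    |p i| ≤ ((10 * rad s * s * (10 * rad s * n * s + 1) ^ (10 * rad s * n) : ℕ) : ℤ) := by
  unfold points at hp
  rw [Finset.mem_image] at hp
  obtain ⟨⟨pos, val, brk, y, u⟩, _, rfl⟩ := hp
  simp only [point]
  have hc : cnt s ≤ 10 * rad s := (cnt_le s).trans (by unfold rad; omega)
  split_ifs with h
  · calc |∑ l, (if (pos l : ℕ) = i then ((val l : ℕ) : ℤ) else 0)|
        ≤ ∑ l, |(if (pos l : ℕ) = i then ((val l : ℕ) : ℤ) else 0)| :=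
          Finset.abs_sum_le_sum_abs _ _
      _ ≤ ∑ l : Fin (cnt s), (s : ℤ) := by
          apply Finset.sum_le_sum
          intro l _
          split_ifs
          · rw [abs_of_nonneg (by positivity)]
            have := (val l).isLt
            omega
          · simp
      _ = ((cnt s * s * 1 : ℕ) : ℤ) := by simp
      _ ≤ _ := by
          apply Int.ofNat_le.2
          gcongr
          exact Nat.one_le_pow _ _ (by omega)
  · calc |∑ k, ((y k : ℕ) : ℤ) * ((u (block brk i) : ℕ) : ℤ) ^ (((i : ℕ) + 1) * (k : ℕ))|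
        ≤ ∑ k, |((y k : ℕ) : ℤ) * ((u (block brk i) : ℕ) : ℤ) ^ (((i : ℕ) + 1) * (k : ℕ))| :=
          Finset.abs_sum_le_sum_abs _ _
      _ ≤ ∑ k : Fin (10 * rad s),
          ((s * (10 * rad s * n * s + 1) ^ (10 * rad s * n) : ℕ) : ℤ) := by
          apply Finset.sum_le_sum
          intro k _
          rw [abs_of_nonneg (by positivity)]
          have h1 := (y k).isLt
          have h2 := (u (block brk i)).isLt
          have h3 : ((i : ℕ) + 1) * (k : ℕ) ≤ 10 * rad s * n := by
            rw [mul_comm (10 * rad s) n]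
            exact Nat.mul_le_mul i.isLt k.isLt.le
          have h4 : (y k : ℕ) * (u (block brk i) : ℕ) ^ (((i : ℕ) + 1) * (k : ℕ)) ≤
              s * (10 * rad s * n * s + 1) ^ (10 * rad s * n) := by
            calc (y k : ℕ) * (u (block brk i) : ℕ) ^ (((i : ℕ) + 1) * (k : ℕ))
                ≤ s * (10 * rad s * n * s + 1) ^ (((i : ℕ) + 1) * (k : ℕ)) := by
                  gcongr
                  omega
              _ ≤ _ := by
                  gcongr
                  omega
          exact_mod_cast h4
      _ = _ := by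
          rw [Finset.sum_const, Finset.card_univ, Fintype.card_fin, nsmul_eq_mul]
          push_cast
          ring

/-- **Subexponential deterministic identity test.** For all `n` and `s` the explicit set
`points n s` of at most `(10 r (n+1)(s+1))^(14 r)` integer points, `r = ⌊√s⌋ + 1`, with
coordinates of polynomial bit length, has the following property. An arithmetic expression in `n`
variables with at most `s` occurrences of variables (any number of constants from any field of
characteristic zero, any depth) is formally zero if and only if it vanishes at all these points. -/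
theorem result {F : Type*} [Field F] [CharZero F] (n s : ℕ) :
    (points n s).card ≤ (10 * rad s * (n + 1) * (s + 1)) ^ (14 * rad s) ∧
    (∀ p ∈ points n s, ∀ i, |p i| ≤
      ((10 * rad s * s * (10 * rad s * n * s + 1) ^ (10 * rad s * n) : ℕ) : ℤ)) ∧
    ∀ E : Expr F n, E.size ≤ s →
      (E.poly = 0 ↔ ∀ p ∈ points n s, MvPolynomial.eval (fun i => (p i : F)) E.poly = 0) := by
  classical
  refine ⟨points_card n s, points_bound n s, ?_⟩
  intro E hE
  constructor
  · intro h p _
    rw [h, map_zero]
  · intro hall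
    by_contra hne
    obtain ⟨w, hw, hws⟩ := expr_fm E
    obtain ⟨H, bl, hH, hbl, v, y, u, hv, hy, hu, hev⟩ :=
      Pool.Agent.H530R2.exists_seeds hw s (rad s) (by omega) (by unfold rad; omega) hne
    obtain ⟨β, hβ⟩ := Pool.Agent.H530R2.exists_breaks bl hbl
    obtain ⟨pos, hpos1, hpos2⟩ := Pool.Agent.H530R2.exists_slots H hH
    apply hev
    have hcomm : n * (10 * rad s) * s = 10 * rad s * n * s := by ring
    have hmem : point pos (fun l => if h : (pos l : ℕ) < n then v ⟨pos l, h⟩ else 0) β y u ∈
        points n s := by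
      unfold points
      rw [Finset.mem_image]
      refine ⟨⟨pos, fun l => ⟨if h : (pos l : ℕ) < n then v ⟨pos l, h⟩ else 0, ?_⟩, β,
        fun k => ⟨y k, Nat.lt_succ_of_le (hy k)⟩,
        fun c => ⟨u c, Nat.lt_succ_of_le (by rw [← hcomm]; exact hu c)⟩⟩, Finset.mem_univ _, rfl⟩
      split_ifs
      · exact Nat.lt_succ_of_le (hv _)
      · omega
    rw [← hall _ hmem]
    congr 2
    funext i
    have hblk : block β i = bl i := Fin.ext (hβ i)
    simp only [point]
    by_cases hi : i ∈ H
    · obtain ⟨l, hl⟩ := (hpos1 i).2 hi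
      rw [if_pos hi, if_pos ⟨l, hl⟩, Finset.sum_eq_single l]
      · rw [if_pos hl]
        have h1 : (pos l : ℕ) < n := by rw [hl]; exact i.isLt
        have h2 : (⟨pos l, h1⟩ : Fin n) = i := Fin.ext hl
        rw [dif_pos h1, h2]
        simp
      · intro l' _ hne'
        rw [if_neg]
        intro h
        exact hne' (hpos2 i l' l h hl)
      · simp
    · rw [if_neg hi, if_neg (fun h => hi ((hpos1 i).1 h)), hblk]
      push_cast
      rfl

end Pool.Agent.Results.MP_3c5c20_lc.SubexponentialTest
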